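import Pool.Agent.Helper51.AJ.St
import Pool.Agent.Helper51.AJ.Basic

/-!
# Project AJ (MP_d63854_co), module JNM: joins and minors
-/

set_option autoImplicit false

namespace Pool.Agent.Helper11.AJ

open Pool.Agent.Helper51.AJ

private theorem con_image {V V' : Type} {G : SimpleGraph V} {G' : SimpleGraph V'} (f : V → V')
    (hf : ∀ a b, G.Adj a b → G'.Adj (f a) (f b)) {S : Set V} (h : (G.induce S).Connected) :
    (G'.induce (f '' S)).Connected := by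
  let g : G.induce S →g G'.induce (f '' S) :=
    ⟨fun x => ⟨f x.1, x.1, x.2, rfl⟩, fun {a b} hab => hf a.1 b.1 hab⟩
  refine h.map g ?_
  rintro ⟨_, x, hx, rfl⟩
  exact ⟨⟨x, hx⟩, rfl⟩

theorem hJNM (h1 : StTrn) : StJnm := by
  have h3 : ∀ (W V : Type) (H : SimpleGraph W) (G : SimpleGraph V), IsMinor H G → Planar G → Planar H := by
    intro W V H G hm hG
    exact ⟨fun h => hG.1 (h1.1 _ _ _ _ _ _ h hm), fun h => hG.2 (h1.1 _ _ _ _ _ _ h hm)⟩
  refine ⟨?_, ?_, h3⟩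
  · intro U U' V V' A A' B B' ⟨φ, hφ1, hφ2, hφ3⟩ ⟨ψ, hψ1, hψ2, hψ3⟩
    have hlr : ∀ (S : Set U') (T : Set V'), Disjoint (Sum.inl '' S : Set (U' ⊕ V')) (Sum.inr '' T) := by
      intro S T
      rw [Set.disjoint_left]
      rintro _ ⟨x, _, rfl⟩ ⟨y, _, hy⟩
      cases hy
    refine ⟨Sum.elim (fun a => Sum.inl '' φ a) (fun b => Sum.inr '' ψ b), ?_, ?_, ?_⟩
    · rintro (a | b)
      · exact con_image (G := A') (G' := jn A' B') Sum.inl (fun _ _ h => h) (hφ1 a)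
      · exact con_image (G := B') (G' := jn A' B') Sum.inr (fun _ _ h => h) (hψ1 b)
    · rintro (a | b) (a' | b') hne
      · exact (Set.disjoint_image_iff Sum.inl_injective).2 (hφ2 a a' fun h => hne (by rw [h]))
      · exact hlr _ _
      · exact (hlr _ _).symm
      · exact (Set.disjoint_image_iff Sum.inr_injective).2 (hψ2 b b' fun h => hne (by rw [h]))
    · rintro (a | b) (a' | b') hadj
      · obtain ⟨x, hx, y, hy, hxy⟩ := hφ3 a a' hadj
        exact ⟨_, ⟨x, hx, rfl⟩, _, ⟨y, hy, rfl⟩, hxy⟩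
      · obtain ⟨x, hx⟩ := con_nonempty (hφ1 a)
        obtain ⟨y, hy⟩ := con_nonempty (hψ1 b')
        exact ⟨_, ⟨x, hx, rfl⟩, _, ⟨y, hy, rfl⟩, trivial⟩
      · obtain ⟨x, hx⟩ := con_nonempty (hψ1 b)
        obtain ⟨y, hy⟩ := con_nonempty (hφ1 a')
        exact ⟨_, ⟨x, hx, rfl⟩, _, ⟨y, hy, rfl⟩, trivial⟩
      · obtain ⟨x, hx, y, hy, hxy⟩ := hψ3 b b' hadj
        exact ⟨_, ⟨x, hx, rfl⟩, _, ⟨y, hy, rfl⟩, hxy⟩
  · intro W V H G hm hG
    rcases hG with hG | ⟨v, hG⟩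
    · exact Or.inl (h3 _ _ _ _ hm hG)
    · obtain ⟨φ, hφ1, hφ2, hφ3⟩ := hm
      by_cases hv : ∃ w, v ∈ φ w
      · obtain ⟨w0, hw0⟩ := hv
        right
        refine ⟨w0, h3 _ _ _ _ ((h1.2 _ _ _ _ _).2 ⟨fun w => φ w.1, ?_, ?_, ?_, ?_⟩) hG⟩
        · rintro ⟨w, hw⟩ x hx rfl
          exact Set.disjoint_left.1 (hφ2 w w0 hw) hx hw0
        · exact fun w => hφ1 w.1
        · intro w w' hne
          exact hφ2 _ _ fun h => hne (Subtype.ext h)
        · intro w w' hadj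
          exact hφ3 w.1 w'.1 hadj
      · push Not at hv
        left
        refine h3 _ _ _ _ ((h1.2 _ _ _ _ _).2 ⟨φ, ?_, hφ1, hφ2, hφ3⟩) hG
        intro w x hx hxv
        rw [Set.mem_singleton_iff] at hxv
        exact hv w (hxv ▸ hx)

end Pool.Agent.Helper11.AJ
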